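import Pool.Agent.R419.KG.NS
import Pool.Agent.R419.KF.Fin

/-!
# Project KG: the cube-free `D` with norm `7` modulo `9`

The exact proportion in half of the class of project KF.  For these `D` the curve `y² + D y = x³` has no
points of order two over the completion at the prime above three.
-/

set_option autoImplicit false
set_option linter.unusedVariables false

open scoped Classical

namespace Pool.Agent.R419.KG

open NumberField IsDedekindDomain WeierstrassCurve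
open Pool.Agent.Y692.QS (Ei)
open Pool.Agent.Y703.CT
open Pool.Agent.Y696.CTK
open Pool.Agent.Y696.XK (img_ncard)
open Pool.Agent.R419.KF (ClsKC cf_iff)

/-- cube-free, `1` modulo `3`, with norm `7` modulo `9` -/
def ClsK7 {K : Type} [Field K] [NumberField K] (D : 𝓞 K) : Prop :=
  (3 : 𝓞 K) ∣ D - 1 ∧ (∀ x : 𝓞 K, x ^ 3 ∣ D → IsUnit x) ∧ (9 : ℤ) ∣ Algebra.norm ℤ D - 7

section
variable {K : Type} [Field K] [NumberField K] (j : Ei ≃+* 𝓞 K)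

lemma cls7_iff (hj : ∀ z : Ei, Algebra.norm ℤ (j z) = Pool.Agent.Y692.QS.nr z) (D : Ei) :
    ClsK7 (j D) ↔ ClsC D := by
  have e1 : (3 : 𝓞 K) ∣ j D - 1 ↔ (3 : Ei) ∣ D - 1 := by
    have : j D - 1 = j (D - 1) := by rw [map_sub, map_one]
    rw [this, ← map_ofNat j 3, map_dvd_iff j]
  unfold ClsK7 ClsC
  rw [e1, hj]
  constructor
  · rintro ⟨h1, h2, h3⟩
    exact ⟨h1, (cf_iff j D).1 ⟨Pool.Agent.Y699.E.prm_ne_zero h1, h2⟩, h3⟩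
  · rintro ⟨h1, h2, h3⟩
    exact ⟨h1, ((cf_iff j D).2 h2).2, h3⟩

end

lemma ar7 {x : ℤ} (h : (9 : ℤ) ∣ x - 7) : ¬ (9 : ℤ) ∣ x - 1 := by omega

lemma nine_nr {z : Ei} (h9 : (9 : Ei) ∣ z + 2) (h7 : (9 : ℤ) ∣ Pool.Agent.Y692.QS.nr z - 7) :
    False := by
  have h1 : ((9 : ℤ) : Ei) ∣ z + ((2 : ℤ) : Ei) := by exact_mod_cast h9
  rw [Pool.Agent.Y692.QS.int_dvd] at h1
  obtain ⟨⟨a, ha⟩, ⟨b, hb⟩⟩ := h1
  have hre : z.re + 2 = 9 * a := ha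
  have him : z.im + 0 = 9 * b := hb
  have e2 : Pool.Agent.Y692.QS.nr z = 4 + 9 * (9 * a ^ 2 - 4 * a - 9 * a * b + 2 * b + 9 * b ^ 2) := by
    have e3 : z.re = 9 * a - 2 := by linarith
    have e4 : z.im = 9 * b := by linarith
    show z.re ^ 2 - z.re * z.im + z.im ^ 2 = _
    rw [e3, e4]
    ring
  obtain ⟨c, hc⟩ := h7
  rw [e2] at hc
  omega

section
variable {K : Type} [Field K] [NumberField K]

lemma cls_of7 {D : 𝓞 K} (h : ClsK7 D) : ClsKC D := by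
  refine ⟨h.1, h.2.1, fun h9 => ?_⟩
  have := h.2.2
  omega

lemma ne_zero7 {D : 𝓞 K} (h : ClsK7 D) : D ≠ 0 := by
  rintro rfl
  exact not_isUnit_zero (h.2.1 0 (by rw [zero_pow (by norm_num)]))

lemma not_nine [IsCyclotomicExtension {3} ℚ K] {D : 𝓞 K} (h : ClsK7 D) : ¬ (9 : 𝓞 K) ∣ D + 2 := by
  obtain ⟨⟨j, hj⟩, -⟩ := Pool.Agent.Y455.CTK.jex K
  obtain ⟨z, rfl⟩ := j.surjective D
  intro h9
  have e : j z + 2 = j (z + 2) := by rw [map_add, map_ofNat]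
  rw [e, ← map_ofNat j 9, map_dvd_iff j] at h9
  have h7 := h.2.2
  rw [hj] at h7
  exact nine_nr h9 h7

end

/-- **The final statement.** -/
theorem final (K : Type) [Field K] [NumberField K] [IsCyclotomicExtension {3} ℚ K] :
    (∃ c : ℝ, 0 < c ∧ ∃ X₀ : ℕ, ∀ X : ℕ, X₀ ≤ X →
      c * X ≤ ({D : 𝓞 K | Algebra.norm ℤ D ≤ X ∧ ClsK7 D}.ncard : ℝ)) ∧
    Filter.Tendsto (fun X : ℕ =>
      ({D : 𝓞 K | Algebra.norm ℤ D ≤ X ∧ ClsK7 D ∧ Tri D}.ncard : ℝ) /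
        ({D : 𝓞 K | Algebra.norm ℤ D ≤ X ∧ ClsK7 D}.ncard : ℝ)) Filter.atTop
      (nhds (∏' i : ℕ, (1 - (1 / 3 : ℝ) ^ (2 * i + 1)))) ∧
    (0.639 : ℝ) < ∏' i : ℕ, (1 - (1 / 3 : ℝ) ^ (2 * i + 1)) ∧
    ∏' i : ℕ, (1 - (1 / 3 : ℝ) ^ (2 * i + 1)) < 0.6391 := by
  obtain ⟨⟨j, hj⟩, -⟩ := Pool.Agent.Y455.CTK.jex K
  have hc9 := Pool.Agent.XLK.t_C9
  have e2 : ∀ X : ℕ, {D : 𝓞 K | Algebra.norm ℤ D ≤ X ∧ ClsK7 D}.ncard =
      {D : Ei | Pool.Agent.Y692.QS.nr D ≤ X ∧ ClsC D}.ncard := fun X =>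
    img_ncard j hj X ClsC ClsK7 fun D => (cls7_iff j hj D).symm
  have e1 : ∀ X : ℕ, {D : 𝓞 K | Algebra.norm ℤ D ≤ X ∧ ClsK7 D ∧ Tri D}.ncard =
      {D : Ei | Pool.Agent.Y692.QS.nr D ≤ X ∧ ClsC D ∧ Tri (j D)}.ncard := fun X =>
    img_ncard j hj X (fun D => ClsC D ∧ Tri (j D)) (fun D => ClsK7 D ∧ Tri D)
      fun D => and_congr_left fun _ => (cls7_iff j hj D).symm
  refine ⟨?_, ?_, hc9.2.2.2.1, hc9.2.2.2.2⟩
  · obtain ⟨c, X₀, hc, h⟩ := low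
    refine ⟨c, hc, X₀, fun X hX => ?_⟩
    rw [e2, card_cls]
    exact h X hX
  · simp only [e1, e2]
    refine t_PR Pool.Agent.Y363.XK.t_BIL Pool.Agent.Y710.XK.t_EQ
      (Pool.Agent.Y85.XK.t_LA Pool.Agent.Y804.XK.t_SYM hc9) hc9
      (fun D => Tri (j D)) fun M S hMS => ?_
    obtain ⟨n, π, e, hdt, hel, hg⟩ := data hMS
    have h7 := ((cls_el hMS.1 hMS.2.1).2 hMS).2.2
    have h9 := ar7 h7
    rw [hel] at h9 ⊢
    rw [hg]
    exact Pool.Agent.R419.KF.tri_iff j parts hdt h9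

end Pool.Agent.R419.KG
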