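import Pool.Agent.R419.KG.Asy
import Pool.Agent.Y550.XK.NS

/-!
# Project KF: the sum over the sets `M` of the primes with exponent `2`
-/

set_option autoImplicit false

open scoped Classical
open Finset Filter

namespace Pool.Agent.R419.KG

open Pool.Agent.Y692.QS (Ei w nr toC)
open Pool.Agent.Y715.T.RecG (Pq)
open Pool.Agent.Y699.E (nrm QB mem_QB pq_nrm_two)
open Pool.Agent.Y703.XK (c9 S_EQ S_LA S_BIL S_C9 S_LOW SS Cl)
open Pool.Agent.Y433.XK (pN pN_pos eulerE)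

/-- the number of the pairs -/
noncomputable def Nt (X : ℕ) : ℕ := ∑ M ∈ SG X, (SW M (X / pN M)).card

/-- the number of the good pairs -/
noncomputable def Gt (X : ℕ) : ℕ := ∑ M ∈ SG X, ((SW M (X / pN M)).filter (GdW M)).card

/-- the weights -/
noncomputable def ff (M : Finset Ei) : ℝ :=
  if ∀ q ∈ M, Pq q then 1 / ((pN M : ℕ) : ℝ) ^ 2 else 0

theorem ff_nonneg (M : Finset Ei) : 0 ≤ ff M := by
  unfold ff
  split_ifs
  · positivity
  · exact le_rfl

theorem sw_le {M : Finset Ei} (hM : ∀ q ∈ M, Pq q) (X : ℕ) :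
    ((SW M (X / pN M)).card : ℝ) ≤ 16 * (X * ff M) := by
  have hp := pN_pos hM
  have hp' : (0 : ℝ) < (pN M : ℝ) := by exact_mod_cast hp
  have h1 : ((SW M (X / pN M)).image fun S => S \ M).card = (SW M (X / pN M)).card := by
    apply card_image_of_injOn
    intro S hS T hT h
    rw [mem_coe, mem_SW] at hS hT
    have h' : S \ M = T \ M := h
    rw [← sdiff_union_of_subset hS.1.2.1, h', sdiff_union_of_subset hT.1.2.1]
  have h2 : ff M = 1 / (pN M : ℝ) ^ 2 := by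
    unfold ff
    rw [if_pos hM]
  rw [← h1, h2]
  apply Cnt.card_le_real _ (by positivity)
  intro T hT
  rw [mem_image] at hT
  obtain ⟨S, hS, rfl⟩ := hT
  rw [mem_SW] at hS
  refine ⟨fun q hq => hS.1.1 q (mem_sdiff.1 hq).1, ?_⟩
  have h3 : (∏ π ∈ S \ M, nrm π) * pN M = ∏ π ∈ S, nrm π := by
    unfold pN
    exact prod_sdiff hS.1.2.1
  have h4 : (((∏ π ∈ S \ M, nrm π : ℕ)) : ℝ) * (pN M : ℝ) ≤ (X : ℝ) / (pN M : ℝ) := by
    have h5 : ((∏ π ∈ S, nrm π : ℕ) : ℝ) ≤ ((X / pN M : ℕ) : ℝ) := by exact_mod_cast hS.2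
    rw [← h3] at h5
    push_cast at h5 ⊢
    exact h5.trans (Nat.cast_div_le)
  rw [le_div_iff₀ hp'] at h4
  rw [mul_one_div, le_div_iff₀ (by positivity)]
  calc _ = (((∏ π ∈ S \ M, nrm π : ℕ)) : ℝ) * (pN M : ℝ) * (pN M : ℝ) := by ring
    _ ≤ _ := h4

theorem ff_sum (u : Finset (Finset Ei)) : ∑ M ∈ u, ff M ≤ Real.exp 2 := by
  set u' := u.filter (fun M => ∀ q ∈ M, Pq q) with hu'
  set W := u'.biUnion id with hW
  have hWq : ∀ q ∈ W, Pq q := by
    intro q hq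
    rw [hW, mem_biUnion] at hq
    obtain ⟨M, hM, hqM⟩ := hq
    exact (mem_filter.1 hM).2 q hqM
  have h1 : ∑ M ∈ u, ff M = ∑ M ∈ u', ff M := by
    rw [hu', sum_filter]
    refine sum_congr rfl fun M _ => ?_
    split_ifs with h
    · rfl
    · unfold ff
      rw [if_neg h]
  have h2 : ∑ M ∈ u', ff M ≤ ∑ M ∈ W.powerset, ∏ q ∈ M, (1 : ℝ) / (nrm q : ℝ) ^ 2 := by
    have h3 : ∀ M ∈ u', ff M = ∏ q ∈ M, (1 : ℝ) / (nrm q : ℝ) ^ 2 := by
      intro M hM
      unfold ff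
      rw [if_pos (mem_filter.1 hM).2, prod_div_distrib, prod_const_one, prod_pow]
      unfold pN
      push_cast
      rfl
    rw [sum_congr rfl h3]
    refine sum_le_sum_of_subset_of_nonneg ?_ fun _ _ _ => prod_nonneg fun _ _ => by positivity
    intro M hM
    rw [mem_powerset]
    intro q hq
    rw [hW, mem_biUnion]
    exact ⟨M, hM, hq⟩
  have h3 : ∑ q ∈ W, (1 : ℝ) / (nrm q : ℝ) ^ 2 ≤ 2 := by
    have h4 := Cnt.sum_sq (X := W.sup nrm) (z := 1) le_rfl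
    rw [Nat.cast_one, div_one] at h4
    refine le_trans (sum_le_sum_of_subset_of_nonneg ?_ fun _ _ _ => by positivity) h4
    intro q hq
    have h5 := hWq q hq
    have h6 := pq_nrm_two h5
    have h7 : nrm q ≤ W.sup nrm := le_sup hq
    rw [mem_filter, mem_QB]
    exact ⟨⟨h7, h5⟩, by omega⟩
  rw [h1]
  exact h2.trans ((eulerE W _ fun _ _ => by positivity).trans (Real.exp_le_exp.2 h3))

theorem ff_summable : Summable ff := summable_of_sum_le ff_nonneg ff_sum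

theorem abs_le_card (hc9 : S_C9) (M : Finset Ei) (Y : ℕ) :
    |(((SW M Y).filter (GdW M)).card : ℝ) - c9 * ((SW M Y).card : ℝ)| ≤ ((SW M Y).card : ℝ) := by
  have h2 : (((SW M Y).filter (GdW M)).card : ℝ) ≤ ((SW M Y).card : ℝ) := by
    exact_mod_cast card_filter_le _ _
  have h3 : (0 : ℝ) ≤ ((SW M Y).card : ℝ) := Nat.cast_nonneg _
  exact Pool.Agent.Y703.CX.abs_sub_le_of (Nat.cast_nonneg _) h2 (mul_nonneg hc9.2.1.le h3)
    (mul_le_of_le_one_left h3 hc9.2.2.1.le)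

/-- the error -/
theorem tot (h1 : S_BIL) (h3 : S_EQ) (h4 : S_LA) (hc9 : S_C9) (δ : ℝ) (hδ : 0 < δ) :
    ∀ᶠ X : ℕ in atTop, |(Gt X : ℝ) - c9 * (Nt X : ℝ)| ≤ δ * X := by
  obtain ⟨T₀, hT₀⟩ := (summable_iff_vanishing_norm.1 ff_summable) (δ / 32) (by positivity)
  set ε' : ℝ := δ / (2 * ((T₀.card : ℝ) + 1)) with hε'
  have hε'0 : 0 < ε' := by positivity
  have hev : ∀ᶠ X : ℕ in atTop, ∀ M ∈ T₀.filter (fun M => ∀ q ∈ M, Pq q),
      |(((SW M (X / pN M)).filter (GdW M)).card : ℝ) - c9 * ((SW M (X / pN M)).card : ℝ)| ≤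
        ε' * X := by
    rw [eventually_all_finset]
    intro M hM
    have hp := pN_pos (mem_filter.1 hM).2
    obtain ⟨X₀, hX₀⟩ := asyM h1 h3 h4 hc9 M ε' hε'0
    filter_upwards [eventually_ge_atTop (X₀ * pN M)] with X hX
    have h5 : X₀ ≤ X / pN M := (Nat.le_div_iff_mul_le hp).2 hX
    refine (hX₀ _ h5).trans ?_
    have h6 : ((X / pN M : ℕ) : ℝ) ≤ X := by exact_mod_cast Nat.div_le_self _ _
    gcongr
  filter_upwards [hev] with X hX
  have k1 : (Gt X : ℝ) - c9 * (Nt X : ℝ) = ∑ M ∈ SG X,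
      ((((SW M (X / pN M)).filter (GdW M)).card : ℝ) - c9 * ((SW M (X / pN M)).card : ℝ)) := by
    rw [sum_sub_distrib, ← mul_sum]
    unfold Gt Nt
    push_cast
    rfl
  have hX0 : (0 : ℝ) ≤ X := Nat.cast_nonneg _
  rw [k1]
  refine (abs_sum_le_sum_abs _ _).trans ?_
  rw [← sum_filter_add_sum_filter_not (SG X) (fun M => M ∈ T₀)]
  have k2 : ∑ M ∈ (SG X).filter (fun M => M ∈ T₀), |(((SW M (X / pN M)).filter (GdW M)).card : ℝ) -
      c9 * ((SW M (X / pN M)).card : ℝ)| ≤ δ / 2 * X := by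
    have k3 : ∑ M ∈ (SG X).filter (fun M => M ∈ T₀),
        |(((SW M (X / pN M)).filter (GdW M)).card : ℝ) - c9 * ((SW M (X / pN M)).card : ℝ)| ≤
        ∑ M ∈ (SG X).filter (fun M => M ∈ T₀), ε' * X := by
      refine sum_le_sum fun M hM => hX M ?_
      rw [mem_filter] at hM ⊢
      exact ⟨hM.2, (mem_SG.1 hM.1).1⟩
    refine k3.trans ?_
    rw [sum_const, nsmul_eq_mul]
    have k4 : ((((SG X).filter fun M => M ∈ T₀).card : ℕ) : ℝ) ≤ (T₀.card : ℝ) + 1 := by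
      have : ((SG X).filter fun M => M ∈ T₀).card ≤ T₀.card :=
        card_le_card fun M hM => (mem_filter.1 hM).2
      have h6 : ((((SG X).filter fun M => M ∈ T₀).card : ℕ) : ℝ) ≤ (T₀.card : ℝ) := by
        exact_mod_cast this
      linarith
    have k5 : (0 : ℝ) < (T₀.card : ℝ) + 1 := by positivity
    calc ((((SG X).filter fun M => M ∈ T₀).card : ℕ) : ℝ) * (ε' * X) ≤
        ((T₀.card : ℝ) + 1) * (ε' * X) := by gcongr
      _ = δ / 2 * X := by
        rw [hε']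
        field_simp
  have k3 : ∑ M ∈ (SG X).filter (fun M => ¬ M ∈ T₀),
      |(((SW M (X / pN M)).filter (GdW M)).card : ℝ) - c9 * ((SW M (X / pN M)).card : ℝ)| ≤
      δ / 2 * X := by
    have k4 : ∑ M ∈ (SG X).filter (fun M => ¬ M ∈ T₀),
        |(((SW M (X / pN M)).filter (GdW M)).card : ℝ) - c9 * ((SW M (X / pN M)).card : ℝ)| ≤
        ∑ M ∈ (SG X).filter (fun M => ¬ M ∈ T₀), 16 * (X * ff M) := by
      refine sum_le_sum fun M hM => (abs_le_card hc9 M _).trans (sw_le ?_ X)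
      exact (mem_SG.1 (mem_filter.1 hM).1).1
    refine k4.trans ?_
    rw [← mul_sum, ← mul_sum]
    have k5 := hT₀ ((SG X).filter fun M => ¬ M ∈ T₀) (by
      rw [disjoint_left]
      intro M hM hM'
      exact (mem_filter.1 hM).2 hM')
    have k6 := (le_abs_self _).trans ((Real.norm_eq_abs _).symm.le.trans k5.le)
    calc 16 * ((X : ℝ) * ∑ M ∈ (SG X).filter (fun M => ¬ M ∈ T₀), ff M) ≤
        16 * ((X : ℝ) * (δ / 32)) := by gcongr
      _ = δ / 2 * X := by ring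
  calc _ ≤ δ / 2 * X + δ / 2 * X := add_le_add k2 k3
    _ = δ * X := by ring

/-- **the limit** -/
theorem t_TOT (h1 : S_BIL) (h3 : S_EQ) (h4 : S_LA) (hc9 : S_C9)
    (hLo : ∃ (c : ℝ) (X₀ : ℕ), 0 < c ∧ ∀ X : ℕ, X₀ ≤ X → c * X ≤ (Nt X : ℝ)) :
    Tendsto (fun X : ℕ => (Gt X : ℝ) / (Nt X : ℝ)) atTop (nhds c9) := by
  obtain ⟨c, X₀, hc, hlow⟩ := hLo
  rw [Metric.tendsto_nhds]
  intro ε hε
  filter_upwards [tot h1 h3 h4 hc9 (c * ε / 2) (by positivity), eventually_ge_atTop (max X₀ 1)]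
    with X hX hX0
  have hlo := hlow X ((le_max_left _ _).trans hX0)
  have hX1 : (0 : ℝ) < X := by exact_mod_cast (le_max_right _ _).trans hX0
  have hN : (0 : ℝ) < Nt X := lt_of_lt_of_le (by positivity) hlo
  rw [Real.dist_eq]
  have e3 : (Gt X : ℝ) / (Nt X : ℝ) - c9 = ((Gt X : ℝ) - c9 * (Nt X : ℝ)) / (Nt X : ℝ) := by
    field_simp
  rw [e3, abs_div, abs_of_pos hN, div_lt_iff₀ hN]
  calc |(Gt X : ℝ) - c9 * (Nt X : ℝ)| ≤ c * ε / 2 * X := hX
    _ = ε / 2 * (c * X) := by ring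
    _ ≤ ε / 2 * (Nt X : ℝ) := by gcongr
    _ < ε * (Nt X : ℝ) := by
      apply mul_lt_mul_of_pos_right _ hN
      linarith

end Pool.Agent.R419.KG
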